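import Mathlib
import Pool.Agent.MP_8ac6f3_ag.kh.Defs
import Pool.Agent.MP_8ac6f3_ag.kh.Top

open scoped Manifold ContDiff
open Pool.Agent.MP_8ac6f3_ag.KH

namespace Pool.Agent.Results.MP_8ac6f3_ag.KaehlerHyperbolic

/-- If the Kaehler form of a compact Kaehler manifold has a bounded primitive on a connected
covering space, then this covering space is a Stein manifold. -/
theorem result : ∀ (n : ℕ) (X : Type) [TopologicalSpace X] [T2Space X] [CompactSpace X]
    [ChartedSpace (M n) X] [IsManifold 𝓘(ℂ, M n) ω X] (h : X → M n → ℝ), IsKaehler h →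
    ∀ (Y : Type) [TopologicalSpace Y] [ConnectedSpace Y] [ChartedSpace (M n) Y]
    [IsManifold 𝓘(ℂ, M n) ω Y] (p : Y → X), IsCoveringMap p →
    IsLocalDiffeomorph 𝓘(ℂ, M n) 𝓘(ℂ, M n) ω p → BoundedPrimitive p h → Stein (M n) Y :=
  fun _ X _ _ _ _ _ h hh Y _ _ _ _ p hp hp' => kh_main X h hh Y p hp hp'

end Pool.Agent.Results.MP_8ac6f3_ag.KaehlerHyperbolic
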