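import Pool.Agent.MP_8ac6f3_ag.Defs
import Pool.Agent.MP_8ac6f3_ag.Fin
import Pool.Agent.MP_8ac6f3_ag.A1
import Pool.Agent.MP_8ac6f3_ag.A2
import Pool.Agent.MP_8ac6f3_ag.A3
import Pool.Agent.MP_8ac6f3_ag.A4
import Pool.Agent.MP_8ac6f3_ag.PU

open scoped Manifold ContDiff
open Pool.Agent.MP_8ac6f3_ag

namespace Pool.Agent.Results.MP_8ac6f3_ag.SteinTor

/-- The universal cover of a toroidal compactification of a ball quotient with deep cusps is a
Stein manifold. -/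
theorem result : ∀ m : ℕ, ∃ L : ℝ, ∀ (X : Type) [TopologicalSpace X] [T2Space X] [CompactSpace X]
    [ChartedSpace (E (EuclideanSpace ℂ (Fin m))) X]
    [IsManifold 𝓘(ℂ, E (EuclideanSpace ℂ (Fin m))) ω X],
    Nonempty (Toroidal (EuclideanSpace ℂ (Fin m)) L X) →
    ∀ (Y : Type) [TopologicalSpace Y] [SimplyConnectedSpace Y]
    [ChartedSpace (E (EuclideanSpace ℂ (Fin m))) Y]
    [IsManifold 𝓘(ℂ, E (EuclideanSpace ℂ (Fin m))) ω Y] (p : Y → X), IsCoveringMap p →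
    IsLocalDiffeomorph 𝓘(ℂ, E (EuclideanSpace ℂ (Fin m))) 𝓘(ℂ, E (EuclideanSpace ℂ (Fin m))) ω p →
    IsStein (E (EuclideanSpace ℂ (Fin m))) Y :=
  fun _ => main_of (a4 (a2 a1) (a3 pu))

end Pool.Agent.Results.MP_8ac6f3_ag.SteinTor
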